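import Pool.Agent.Helper30.TG.Spec

/-!
# TG, part GE3: a bounded cell has at least three sides, on both sides
-/

set_option autoImplicit false

namespace Pool.Agent.Helper85.TG.GE3

open Pool.Agent.Helper30.TG
open scoped Classical

theorem exists_ub {ι : Type} (S : Finset ι) (f : ι → ℝ) : ∃ Y : ℝ, ∀ e ∈ S, f e < Y := by
  refine ⟨∑ e ∈ S, |f e| + 1, fun e he => ?_⟩
  have h1 : |f e| ≤ ∑ e ∈ S, |f e| := Finset.single_le_sum (fun i _ => abs_nonneg (f i)) he
  have h2 := le_abs_self (f e)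
  linarith

theorem exists_lb {ι : Type} (S : Finset ι) (f : ι → ℝ) : ∃ Y : ℝ, ∀ e ∈ S, Y < f e := by
  obtain ⟨Y, hY⟩ := exists_ub S (fun e => - f e)
  exact ⟨-Y, fun e he => by have := hY e he; linarith⟩

theorem main (hF : S_FAC) : S_GE3 := by
  intro ι a b E U hD hBC
  obtain ⟨hU, hne, ⟨M, hM⟩, -, -⟩ := hBC
  have hno : ∀ q : ℝ × ℝ, (∀ e ∈ Bd a b E U, (e ∈ U → q.2 < ln a b e q.1) ∧
      (e ∉ U → ln a b e q.1 < q.2)) → |q.1| ≤ M := fun q hq =>
    hM q (hF a b E U hD hU hne q hq)
  have hM0 : 0 ≤ M := by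
    obtain ⟨q, hq⟩ := hne
    exact (abs_nonneg _).trans (hM q hq)
  have h1 : ∃ e ∈ Bd a b E U, e ∈ U := by
    by_contra hcon
    push Not at hcon
    obtain ⟨Y, hY⟩ := exists_ub (Bd a b E U) (fun e => ln a b e (M + 1))
    have h := hno (M + 1, Y) (fun e he => ⟨fun h => absurd h (hcon e he), fun _ => hY e he⟩)
    simp only at h
    have := le_abs_self (M + 1)
    linarith
  have h2 : ∃ e ∈ Bd a b E U, e ∉ U := by
    by_contra hcon
    push Not at hcon
    obtain ⟨Y, hY⟩ := exists_lb (Bd a b E U) (fun e => ln a b e (M + 1))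
    have h := hno (M + 1, Y) (fun e he => ⟨fun _ => hY e he, fun h => absurd (hcon e he) h⟩)
    simp only at h
    have := le_abs_self (M + 1)
    linarith
  refine ⟨?_, h1, h2⟩
  obtain ⟨e, he, heU⟩ := h1
  obtain ⟨g, hg, hgU⟩ := h2
  have heg : e ≠ g := fun h => hgU (h ▸ heU)
  by_contra hcard
  have hsub : ({e, g} : Finset ι) ⊆ Bd a b E U := by
    intro x hx
    rw [Finset.mem_insert, Finset.mem_singleton] at hx
    rcases hx with rfl | rfl
    · exact he
    · exact hg
  have heq : ({e, g} : Finset ι) = Bd a b E U := by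
    refine Finset.eq_of_subset_of_card_le hsub ?_
    rw [Finset.card_pair heg]
    omega
  have hno2 : ∀ q : ℝ × ℝ, q.2 < ln a b e q.1 → ln a b g q.1 < q.2 → |q.1| ≤ M := by
    intro q hq1 hq2
    refine hno q ?_
    intro x hx
    rw [← heq, Finset.mem_insert, Finset.mem_singleton] at hx
    rcases hx with rfl | rfl
    · exact ⟨fun _ => hq1, fun h => absurd heU h⟩
    · exact ⟨fun h => absurd h hgU, fun _ => hq2⟩
  have heE : e ∈ E := (Finset.mem_filter.1 he).1
  have hgE : g ∈ E := (Finset.mem_filter.1 hg).1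
  obtain ⟨q0, hq0⟩ := hne
  have h3 := (hq0 e heE).1 heU
  have h4 := (hq0 g hgE).2 hgU
  have h5 : ln a b g q0.1 < ln a b e q0.1 := h4.trans h3
  have h6 : ∀ t : ℝ, ln a b g t < ln a b e t → |t| ≤ M := by
    intro t ht
    exact hno2 (t, (ln a b g t + ln a b e t) / 2) (by simp only; linarith) (by simp only; linarith)
  have h7 := hM q0 hq0
  rcases le_total (a g) (a e) with h | h
  · have h8 := h6 (M + 1) (by
      unfold ln at *
      have : q0.1 ≤ M + 1 := by have := le_abs_self q0.1; linarith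
      nlinarith)
    have := le_abs_self (M + 1)
    linarith
  · have h8 := h6 (-(M + 1)) (by
      unfold ln at *
      have : -(M + 1) ≤ q0.1 := by have := neg_abs_le q0.1; linarith
      nlinarith)
    have := neg_abs_le (-(M + 1))
    linarith

end Pool.Agent.Helper85.TG.GE3
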