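import Pool.Agent.Helper30.TG.Spec

/-!
# TG, part OPP: tight sides of a quadrangular cell
-/

set_option autoImplicit false

namespace Pool.Agent.Helper85.TG.OPP

open Pool.Agent.Helper30.TG
open scoped Classical

/-- the sign of the line `k` -/
noncomputable def u {ι : Type} (U : Finset ι) (k : ι) : ℝ := if k ∈ U then 1 else -1

theorem u_pos {ι : Type} (U : Finset ι) (k : ι) (x y : ℝ) :
    ((k ∈ U → x < y) ∧ (k ∉ U → y < x)) ↔ 0 < u U k * (y - x) := by
  unfold u
  split_ifs with h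
  · constructor
    · intro h1; have := h1.1 h; linarith
    · intro h1; exact ⟨fun _ => by linarith, fun h2 => absurd h h2⟩
  · constructor
    · intro h1; have := h1.2 h; linarith
    · intro h1; exact ⟨fun h2 => absurd h2 h, fun _ => by linarith⟩

theorem tri3 (α β γ δ t0 t1 s t ue ug uh uf : ℝ) (hr : α * (s - t0) = β * (s - t1))
    (h1 : 0 < ue * (-(γ * t + δ))) (h2 : 0 < ue * (-(α * (s - t0))))
    (h3 : 0 < ug * (α * (t - t0) - (γ * t + δ))) (h4 : 0 < ug * (α * (t1 - t0)))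
    (h5 : 0 < uh * (β * (t - t1) - (γ * t + δ))) (h6 : 0 < uh * (β * (t0 - t1)))
    (h7 : 0 < uf * (γ * s + δ - α * (s - t0))) (h8 : 0 < uf * (γ * t1 + δ))
    (h9 : 0 < uf * (γ * t0 + δ)) : False := by
  have key : (ue * (-(γ * t + δ))) * (ug * (α * (t1 - t0))) * (uh * (β * (t0 - t1))) *
      (uf * (γ * s + δ - α * (s - t0))) +
      (ug * (α * (t - t0) - (γ * t + δ))) * (ue * (-(α * (s - t0)))) * (uh * (β * (t0 - t1))) *
      (uf * (γ * t1 + δ)) +
      (uh * (β * (t - t1) - (γ * t + δ))) * (ue * (-(α * (s - t0)))) * (ug * (α * (t1 - t0))) *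
      (uf * (γ * t0 + δ)) = 0 := by
    linear_combination (ue * ug * uh * uf * α * (t1 - t0) * (γ * t + δ) * (γ * t0 + δ)) * hr
  have p1 := mul_pos (mul_pos (mul_pos h1 h4) h6) h7
  have p2 := mul_pos (mul_pos (mul_pos h3 h2) h6) h8
  have p3 := mul_pos (mul_pos (mul_pos h5 h2) h4) h9
  linarith

/-- the ends of a tight segment -/
theorem end_pos {ι : Type} {a b : ι → ℝ} {E U : Finset ι} {e g h : ι} {t0 t1 t : ℝ}
    (hT : Tt a b E e g h t0 t1) (ht0 : t0 < t) (ht1 : t < t1) (hE : EdgAt a b E U e t) {k : ι}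
    (hk : k ∈ E) (hke : k ≠ e) :
    (k ≠ g → 0 < u U k * (ln a b k t0 - ln a b e t0)) ∧
    (k ≠ h → 0 < u U k * (ln a b k t1 - ln a b e t1)) := by
  obtain ⟨-, -, -, -, -, -, -, -, hg, hh, hint⟩ := hT
  have hu : u U k ≠ 0 := by unfold u; split_ifs <;> norm_num
  have hpos : 0 < u U k * (ln a b k t - ln a b e t) := (u_pos U k _ _).1 (hE k hk hke)
  have hcont : Continuous fun s => u U k * (ln a b k s - ln a b e s) := by
    unfold ln; fun_prop
  constructor
  · intro hkg
    by_contra hcon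
    push Not at hcon
    have h0 : u U k * (ln a b k t0 - ln a b e t0) ≠ 0 := by
      intro h0
      rcases mul_eq_zero.1 h0 with h1 | h1
      · exact hu h1
      · exact hkg (hg k hk hke (sub_eq_zero.1 h1))
    have hlt := lt_of_le_of_ne hcon h0
    obtain ⟨s, ⟨hs0, hs1⟩, hs⟩ := intermediate_value_Ioo ht0.le hcont.continuousOn
      (show (0 : ℝ) ∈ Set.Ioo _ _ from ⟨hlt, hpos⟩)
    rcases mul_eq_zero.1 hs with h1 | h1
    · exact hu h1
    · exact hint k hk hke s hs0 (hs1.trans ht1) (sub_eq_zero.1 h1)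
  · intro hkh
    by_contra hcon
    push Not at hcon
    have h0 : u U k * (ln a b k t1 - ln a b e t1) ≠ 0 := by
      intro h0
      rcases mul_eq_zero.1 h0 with h1 | h1
      · exact hu h1
      · exact hkh (hh k hk hke (sub_eq_zero.1 h1))
    have hlt := lt_of_le_of_ne hcon h0
    obtain ⟨s, ⟨hs0, hs1⟩, hs⟩ := intermediate_value_Ioo' ht1.le hcont.continuousOn
      (show (0 : ℝ) ∈ Set.Ioo _ _ from ⟨hlt, hpos⟩)
    rcases mul_eq_zero.1 hs with h1 | h1
    · exact hu h1
    · exact hint k hk hke s (ht0.trans hs0) hs1 (sub_eq_zero.1 h1)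

/-- three mutually neighbouring sides leave no room for a fourth side -/
theorem no_fourth {ι : Type} {a b : ι → ℝ} {E U : Finset ι} {e g h f : ι} {t0 t1 t : ℝ}
    (hT : Tt a b E e g h t0 t1) (ht0 : t0 < t) (ht1 : t < t1) (hE : EdgAt a b E U e t)
    (hf : f ∈ Bd a b E U) (hgh : g ≠ h) (hfe : f ≠ e) (hfg : f ≠ g) (hfh : f ≠ h) {s : ℝ}
    (hs : ln a b h s = ln a b g s) (hse : 0 < u U e * (ln a b e s - ln a b g s))
    (hsf : 0 < u U f * (ln a b f s - ln a b g s)) : False := by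
  obtain ⟨hfE, r, hr⟩ := Finset.mem_filter.1 hf
  have heE := hT.1
  have hgE := hT.2.1
  have hhE := hT.2.2.1
  have hge := hT.2.2.2.1
  have hhe := hT.2.2.2.2.1
  have e0 : ln a b g t0 = ln a b e t0 := hT.2.2.2.2.2.2.1
  have e1 : ln a b h t1 = ln a b e t1 := hT.2.2.2.2.2.2.2.1
  have f0 := (end_pos hT ht0 ht1 hE hfE hfe).1 hfg
  have f1 := (end_pos hT ht0 ht1 hE hfE hfe).2 hfh
  have g1 := (end_pos hT ht0 ht1 hE hgE hge).2 hgh
  have h0 := (end_pos hT ht0 ht1 hE hhE hhe).1 hgh.symm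
  have re := (u_pos U e _ _).1 (hr e heE hfe.symm)
  have rg := (u_pos U g _ _).1 (hr g hgE hfg.symm)
  have rh := (u_pos U h _ _).1 (hr h hhE hfh.symm)
  unfold ln at *
  have bg : b g = b e - (a g - a e) * t0 := by linarith
  have bh : b h = b e - (a h - a e) * t1 := by linarith
  refine tri3 (a g - a e) (a h - a e) (a f - a e) (b f - b e) t0 t1 s r (u U e) (u U g) (u U h)
    (u U f) ?_ ?_ ?_ ?_ ?_ ?_ ?_ ?_ ?_ ?_
  · rw [bg, bh] at hs; linarith
  · convert re using 2; ring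
  · rw [bg] at hse; convert hse using 2; ring
  · rw [bg] at rg; convert rg using 2; ring
  · rw [bg] at g1; convert g1 using 2; ring
  · rw [bh] at rh; convert rh using 2; ring
  · rw [bh] at h0; convert h0 using 2; ring
  · rw [bg] at hsf; convert hsf using 2; ring
  · convert f1 using 2; ring
  · convert f0 using 2; ring

theorem main (hN : S_NB) (hS : S_SYM) : S_OPP := by
  intro ι a b E U e g h f x y hD hU hne hfe hfg hfh hBd hTe
  have hfB : f ∈ Bd a b E U := by rw [hBd]; simp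
  obtain ⟨t0, t1, t, hT, ht0, ht1, hE⟩ := hTe
  obtain ⟨hgh, hgB, hhB, -, -, hag, hah, -⟩ := hN a b E U e g h t0 t1 t hD hT ht0 ht1 hE
  have hTe : Tig a b E U e g h := ⟨t0, t1, t, hT, ht0, ht1, hE⟩
  have hge : g ≠ e := hT.2.2.2.1
  have hhe : h ≠ e := hT.2.2.2.2.1
  have mem4 : ∀ z, z ∈ Bd a b E U → z = e ∨ z = g ∨ z = h ∨ z = f := by
    intro z hz
    rw [hBd] at hz
    simpa using hz
  refine ⟨?_, ?_, ?_⟩
  · intro hTf
    have hTf' := hTf
    obtain ⟨s0, s1, s, hT', hs0, hs1, hE'⟩ := hTf'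
    obtain ⟨hxy, hxB, hyB, -, -, hax, hay, -⟩ := hN a b E U f x y s0 s1 s hD hT' hs0 hs1 hE'
    have hxf : x ≠ f := hT'.2.2.2.1
    have hyf : y ≠ f := hT'.2.2.2.2.1
    have hxe : x ≠ e := by
      rintro rfl
      rcases (hS a b E U f x y g h hD hTf).1 hTe with h1 | h1
      · exact hfg h1
      · exact hfh h1
    have hye : y ≠ e := by
      rintro rfl
      rcases (hS a b E U f x y g h hD hTf).2 hTe with h1 | h1
      · exact hfg h1
      · exact hfh h1
    rcases mem4 x hxB with h1 | h1 | h1 | h1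
    · exact absurd h1 hxe
    · rcases mem4 y hyB with h2 | h2 | h2 | h2
      · exact absurd h2 hye
      · exact absurd (h1.trans h2.symm) hxy
      · exact Or.inl ⟨h1, h2⟩
      · exact absurd h2 hyf
    · rcases mem4 y hyB with h2 | h2 | h2 | h2
      · exact absurd h2 hye
      · exact Or.inr ⟨h1, h2⟩
      · exact absurd (h1.trans h2.symm) hxy
      · exact absurd h2 hyf
    · exact absurd h1 hxf
  · intro hTg
    have hTg' := hTg
    obtain ⟨s0, s1, s, hT', hs0, hs1, hE'⟩ := hTg'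
    obtain ⟨hxy, hxB, hyB, -, -, hax, hay, -⟩ := hN a b E U g x y s0 s1 s hD hT' hs0 hs1 hE'
    have hxg : x ≠ g := hT'.2.2.2.1
    have hyg : y ≠ g := hT'.2.2.2.2.1
    have heE := hT.1
    have hfE : f ∈ E := (Finset.mem_filter.1 hfB).1
    have hx0 : ln a b x s0 = ln a b g s0 := hT'.2.2.2.2.2.2.1
    have hy1 : ln a b y s1 = ln a b g s1 := hT'.2.2.2.2.2.2.2.1
    -- the end where `h` passes gives a contradiction
    have hxh : x ≠ h := by
      rintro rfl
      exact no_fourth hT ht0 ht1 hE hfB hgh hfe hfg hfh hx0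
        ((end_pos hT' hs0 hs1 hE' heE hge.symm).1 hhe.symm)
        ((end_pos hT' hs0 hs1 hE' hfE hfg).1 hfh)
    have hyh : y ≠ h := by
      rintro rfl
      exact no_fourth hT ht0 ht1 hE hfB hgh hfe hfg hfh hy1
        ((end_pos hT' hs0 hs1 hE' heE hge.symm).2 hhe.symm)
        ((end_pos hT' hs0 hs1 hE' hfE hfg).2 hfh)
    rcases mem4 x hxB with h1 | h1 | h1 | h1
    · rcases mem4 y hyB with h2 | h2 | h2 | h2
      · exact absurd (h1.trans h2.symm) hxy
      · exact absurd h2 hyg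
      · exact absurd h2 hyh
      · exact Or.inl ⟨h1, h2⟩
    · exact absurd h1 hxg
    · exact absurd h1 hxh
    · rcases mem4 y hyB with h2 | h2 | h2 | h2
      · exact Or.inr ⟨h1, h2⟩
      · exact absurd h2 hyg
      · exact absurd h2 hyh
      · exact absurd (h1.trans h2.symm) hxy
  · intro hTh
    have hTh' := hTh
    obtain ⟨s0, s1, s, hT', hs0, hs1, hE'⟩ := hTh'
    obtain ⟨hxy, hxB, hyB, -, -, hax, hay, -⟩ := hN a b E U h x y s0 s1 s hD hT' hs0 hs1 hE'
    have hxh : x ≠ h := hT'.2.2.2.1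
    have hyh : y ≠ h := hT'.2.2.2.2.1
    have heE := hT.1
    have hfE : f ∈ E := (Finset.mem_filter.1 hfB).1
    have hx0 : ln a b x s0 = ln a b h s0 := hT'.2.2.2.2.2.2.1
    have hy1 : ln a b y s1 = ln a b h s1 := hT'.2.2.2.2.2.2.2.1
    have hxg : x ≠ g := by
      rintro rfl
      have p1 := (end_pos hT' hs0 hs1 hE' heE hhe.symm).1 hge.symm
      have p2 := (end_pos hT' hs0 hs1 hE' hfE hfh).1 hfg
      rw [← hx0] at p1 p2
      exact no_fourth hT ht0 ht1 hE hfB hgh hfe hfg hfh hx0.symm p1 p2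
    have hyg : y ≠ g := by
      rintro rfl
      have p1 := (end_pos hT' hs0 hs1 hE' heE hhe.symm).2 hge.symm
      have p2 := (end_pos hT' hs0 hs1 hE' hfE hfh).2 hfg
      rw [← hy1] at p1 p2
      exact no_fourth hT ht0 ht1 hE hfB hgh hfe hfg hfh hy1.symm p1 p2
    rcases mem4 x hxB with h1 | h1 | h1 | h1
    · rcases mem4 y hyB with h2 | h2 | h2 | h2
      · exact absurd (h1.trans h2.symm) hxy
      · exact absurd h2 hyg
      · exact absurd h2 hyh
      · exact Or.inl ⟨h1, h2⟩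
    · exact absurd h1 hxg
    · exact absurd h1 hxh
    · rcases mem4 y hyB with h2 | h2 | h2 | h2
      · exact Or.inr ⟨h1, h2⟩
      · exact absurd h2 hyg
      · exact absurd h2 hyh
      · exact absurd (h1.trans h2.symm) hxy

end Pool.Agent.Helper85.TG.OPP
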