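import Pool.Agent.Helper30.TG.Spec

/-!
# TG, part TRI: all sides of a triangular cell are good
-/

set_option autoImplicit false

namespace Pool.Agent.Helper85.TG.TRI

open Pool.Agent.Helper30.TG
open scoped Classical

theorem main (hF : S_FAC) (hN : S_NB) : S_TRI := by
  intro ι a b E U hD hBC hcard
  obtain ⟨hU, hne, ⟨M, hM⟩, -, -⟩ := hBC
  have hno : ∀ q : ℝ × ℝ, (∀ e ∈ Bd a b E U, (e ∈ U → q.2 < ln a b e q.1) ∧
      (e ∉ U → ln a b e q.1 < q.2)) → |q.1| ≤ M := fun q hq =>
    hM q (hF a b E U hD hU hne q hq)
  rw [← hcard]
  apply Finset.card_le_card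
  intro e he
  refine Finset.mem_filter.2 ⟨(Finset.mem_filter.1 he).1, (Finset.mem_filter.1 he).2, ?_⟩
  intro g h t0 t1 t hT ht0 ht1 hE
  obtain ⟨hgh, hgB, hhB, hgU, hhU, hag, hah, -⟩ := hN a b E U e g h t0 t1 t hD hT ht0 ht1 hE
  have hge : g ≠ e := hT.2.2.2.1
  have hhe : h ≠ e := hT.2.2.2.2.1
  have e0 : ln a b g t0 = ln a b e t0 := hT.2.2.2.2.2.2.1
  have e1 : ln a b h t1 = ln a b e t1 := hT.2.2.2.2.2.2.2.1
  have h01 : t0 < t1 := ht0.trans ht1
  have hBd : ({e, g, h} : Finset ι) = Bd a b E U := by
    refine Finset.eq_of_subset_of_card_le ?_ ?_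
    · intro x hx
      rw [Finset.mem_insert, Finset.mem_insert, Finset.mem_singleton] at hx
      rcases hx with rfl | rfl | rfl
      · exact he
      · exact hgB
      · exact hhB
    · rw [hcard]
      rw [Finset.card_insert_of_notMem (by simp [hge.symm, hhe.symm]), Finset.card_pair hgh]
  -- the region is given by three inequalities
  have hno3 : ∀ s y : ℝ, ((e ∈ U → y < ln a b e s) ∧ (e ∉ U → ln a b e s < y)) →
      ((g ∈ U → y < ln a b g s) ∧ (g ∉ U → ln a b g s < y)) →
      ((h ∈ U → y < ln a b h s) ∧ (h ∉ U → ln a b h s < y)) → |s| ≤ M := by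
    intro s y h1 h2 h3
    refine hno (s, y) ?_
    intro x hx
    rw [← hBd, Finset.mem_insert, Finset.mem_insert, Finset.mem_singleton] at hx
    rcases hx with rfl | rfl | rfl
    · exact h1
    · exact h2
    · exact h3
  unfold ln at *
  have bg : b g = b e - (a g - a e) * t0 := by linarith
  have bh : b h = b e - (a h - a e) * t1 := by linarith
  -- points far to the right and to the left
  obtain ⟨T, hTM, hTt1⟩ : ∃ T : ℝ, M < T ∧ t1 < T :=
    ⟨max M t1 + 1, by linarith [le_max_left M t1], by linarith [le_max_right M t1]⟩
  obtain ⟨L, hLM, hLt0⟩ : ∃ L : ℝ, L < -M ∧ L < t0 :=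
    ⟨min (-M) t0 - 1, by linarith [min_le_left (-M) t0], by linarith [min_le_right (-M) t0]⟩
  have hTabs : ¬ |T| ≤ M := fun h => by linarith [le_abs_self T]
  have hLabs : ¬ |L| ≤ M := fun h => by linarith [neg_abs_le L]
  constructor
  · intro heU hNA
    by_cases hg : g ∈ U
    · have ha := hgU.1 hg
      by_cases hh : h ∈ U
      · -- all above: unbounded below
        obtain ⟨y, hy⟩ : ∃ y : ℝ, y < a e * T + b e ∧ y < a g * T + b g ∧ y < a h * T + b h :=
          ⟨min (min (a e * T + b e) (a g * T + b g)) (a h * T + b h) - 1, by
            have := min_le_left (min (a e * T + b e) (a g * T + b g)) (a h * T + b h)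
            have := min_le_right (min (a e * T + b e) (a g * T + b g)) (a h * T + b h)
            have := min_le_left (a e * T + b e) (a g * T + b g)
            have := min_le_right (a e * T + b e) (a g * T + b g)
            refine ⟨?_, ?_, ?_⟩ <;> linarith⟩
        exact hTabs (hno3 T y ⟨fun _ => hy.1, fun h => absurd heU h⟩
          ⟨fun _ => hy.2.1, fun h => absurd hg h⟩ ⟨fun _ => hy.2.2, fun h' => absurd hh h'⟩)
      · have hb : a e < a h := lt_of_le_of_ne (not_lt.1 fun h' => hh (hhU.2 h')) hah.symm
        -- `a g ≤ a h`: unbounded to the left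
        have hle : a g ≤ a h := by
          rcases hNA with h1 | ⟨h1, -⟩
          · by_contra hlt
            push Not at hlt
            have h2 : 0 < (a g - a e) * (a h - a e) := mul_pos (by linarith) (by linarith)
            have h3 : (a g - a e) * (a h - a e) * (a h - a e - (a g - a e)) ≤ 0 :=
              mul_nonpos_of_nonneg_of_nonpos h2.le (by linarith)
            linarith
          · linarith
        have k1 : a g * L + b g < a e * L + b e := by rw [bg]; nlinarith
        have k2 : a h * L + b h < a g * L + b g := by
          rw [bg, bh]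
          nlinarith [mul_nonneg (sub_nonneg.2 hle) (sub_nonneg.2 hLt0.le),
            mul_pos (sub_pos.2 hb) (sub_pos.2 h01)]
        exact hLabs (hno3 L ((a h * L + b h + (a g * L + b g)) / 2)
          ⟨fun _ => by linarith, fun h => absurd heU h⟩
          ⟨fun _ => by linarith, fun h => absurd hg h⟩ ⟨fun h' => absurd h' hh, fun _ => by linarith⟩)
    · have ha : a g < a e := lt_of_le_of_ne (not_lt.1 fun h' => hg (hgU.2 h')) hag
      by_cases hh : h ∈ U
      · have hb := hhU.1 hh
        have hle : a g ≤ a h := by
          rcases hNA with h1 | ⟨h1, h2⟩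
          · by_contra hlt
            push Not at hlt
            have h2 : 0 < (a g - a e) * (a h - a e) :=
              mul_pos_of_neg_of_neg (by linarith) (by linarith)
            have h3 : (a g - a e) * (a h - a e) * (a h - a e - (a g - a e)) ≤ 0 :=
              mul_nonpos_of_nonneg_of_nonpos h2.le (by linarith)
            linarith
          · linarith
        have k1 : a h * T + b h < a e * T + b e := by rw [bh]; nlinarith
        have k2 : a g * T + b g < a h * T + b h := by
          rw [bg, bh]
          nlinarith [mul_nonneg (sub_nonneg.2 hle) (sub_nonneg.2 hTt1.le),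
            mul_pos (sub_pos.2 ha) (sub_pos.2 h01)]
        exact hTabs (hno3 T ((a h * T + b h + (a g * T + b g)) / 2)
          ⟨fun _ => by linarith, fun h => absurd heU h⟩
          ⟨fun h' => absurd h' hg, fun _ => by linarith⟩ ⟨fun _ => by linarith, fun h' => absurd hh h'⟩)
      · have hb : a e < a h := lt_of_le_of_ne (not_lt.1 fun h' => hh (hhU.2 h')) hah.symm
        rcases hNA with h1 | ⟨h1, -⟩
        · have h2 : (a g - a e) * (a h - a e) < 0 := mul_neg_of_neg_of_pos (by linarith) (by linarith)
          have h3 : (a g - a e) * (a h - a e) * (a h - a e - (a g - a e)) < 0 :=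
            mul_neg_of_neg_of_pos h2 (by linarith)
          linarith
        · linarith
  · intro heU
    by_cases hg : g ∈ U
    · have ha := hgU.1 hg
      by_cases hh : h ∈ U
      · have hb := hhU.1 hh
        left
        have h2 : (a g - a e) * (a h - a e) < 0 := mul_neg_of_pos_of_neg (by linarith) (by linarith)
        exact mul_pos_of_neg_of_neg h2 (by linarith)
      · have hb : a e < a h := lt_of_le_of_ne (not_lt.1 fun h' => hh (hhU.2 h')) hah.symm
        by_contra hNA
        have hlt : a h < a g := by
          by_contra hle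
          push Not at hle
          rcases hle.lt_or_eq with h1 | h1
          · exact hNA (Or.inl (mul_pos (mul_pos (by linarith) (by linarith)) (by linarith)))
          · exact hNA (Or.inr ⟨by linarith, by linarith⟩)
        have k1 : a e * T + b e < a h * T + b h := by rw [bh]; nlinarith
        have k2 : a h * T + b h < a g * T + b g := by
          rw [bg, bh]
          nlinarith [mul_nonneg (sub_nonneg.2 hlt.le) (sub_nonneg.2 hTt1.le),
            mul_pos (sub_pos.2 ha) (sub_pos.2 h01)]
        exact hTabs (hno3 T ((a h * T + b h + (a g * T + b g)) / 2)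
          ⟨fun h => absurd h heU, fun _ => by linarith⟩
          ⟨fun _ => by linarith, fun h => absurd hg h⟩ ⟨fun h' => absurd h' hh, fun _ => by linarith⟩)
    · have ha : a g < a e := lt_of_le_of_ne (not_lt.1 fun h' => hg (hgU.2 h')) hag
      by_cases hh : h ∈ U
      · have hb := hhU.1 hh
        by_contra hNA
        have hle : a h ≤ a g := by
          by_contra hlt
          push Not at hlt
          exact hNA (Or.inl (mul_pos (mul_pos_of_neg_of_neg (by linarith) (by linarith))
            (by linarith)))
        have k1 : a e * L + b e < a g * L + b g := by rw [bg]; nlinarith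
        have k2 : a g * L + b g < a h * L + b h := by
          rw [bg, bh]
          nlinarith [mul_nonneg (sub_nonneg.2 hle) (sub_nonneg.2 hLt0.le),
            mul_pos (sub_pos.2 hb) (sub_pos.2 h01)]
        exact hLabs (hno3 L ((a h * L + b h + (a g * L + b g)) / 2)
          ⟨fun h => absurd h heU, fun _ => by linarith⟩
          ⟨fun h' => absurd h' hg, fun _ => by linarith⟩ ⟨fun _ => by linarith, fun h' => absurd hh h'⟩)
      · -- all below: unbounded above
        exfalso
        obtain ⟨y, hy⟩ : ∃ y : ℝ, a e * T + b e < y ∧ a g * T + b g < y ∧ a h * T + b h < y :=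
          ⟨max (max (a e * T + b e) (a g * T + b g)) (a h * T + b h) + 1, by
            have := le_max_left (max (a e * T + b e) (a g * T + b g)) (a h * T + b h)
            have := le_max_right (max (a e * T + b e) (a g * T + b g)) (a h * T + b h)
            have := le_max_left (a e * T + b e) (a g * T + b g)
            have := le_max_right (a e * T + b e) (a g * T + b g)
            refine ⟨?_, ?_, ?_⟩ <;> linarith⟩
        exact hTabs (hno3 T y ⟨fun h => absurd h heU, fun _ => hy.1⟩
          ⟨fun h => absurd h hg, fun _ => hy.2.1⟩ ⟨fun h' => absurd h' hh, fun _ => hy.2.2⟩)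

end Pool.Agent.Helper85.TG.TRI
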